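import Mathlib
import Pool.Agent.Q190.CSDefs
import Pool.Agent.Q190.RMBDefs
import Pool.Agent.Q190.RMB3

/-!
# MP_fd6526, Q1: radial mean bodies of negative order `p ∈ (-1, 0)` embed in `L^{-p}`
-/

namespace Pool.Agent.Results.MP_fd6526_gt.RadialMeanEmbeds

open Q190

/-- For every convex body `K` in `ℝⁿ`, `n ≥ 1`, and every `p ∈ (-1, 0)` the radial `p`-th mean body
of `K` embeds in `L^{-p}`. -/
theorem result (n : ℕ) (hn : 1 ≤ n) (p : ℝ) (hp : -1 < p) (hp0 : p < 0)
    (K : Set (EuclideanSpace ℝ (Fin n))) (hK : IsConvexBody K) :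
    RMB.EmbedsInLq (RMB.radialMeanBody K p) (-p) :=
  RMB.embeds (by rw [finrank_euclideanSpace_fin]; omega) hK.compact hK.convex
    hK.nonempty_interior p hp hp0

end Pool.Agent.Results.MP_fd6526_gt.RadialMeanEmbeds
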